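import Pool.Agent.H143R3.BT.Stmts

set_option autoImplicit false

/-! Project H143-BT, task BT-V3 (helper195): the hull formula. -/

namespace Pool.Agent.H195R3.BTV3

open MeasureTheory ProbabilityTheory Filter Topology Set
open scoped ENNReal NNReal
open Pool.Agent.H143R3.BT

universe u v

section law

variable {Ω : Type u} [MeasurableSpace Ω] {P : Measure Ω} [IsProbabilityMeasure P]
  {W : ℝ≥0 → Ω → ℝ}

lemma neg_isBM (hW : IsBM P W) : IsBM P (fun t ω => -W t ω) where
  meas t := (hW.meas t).neg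
  zero := by filter_upwards [hW.zero] with ω h; simp [h]
  cont := by filter_upwards [hW.cont] with ω h; exact h.neg
  indep := hW.indep.neg
  law s t h := by
    have e : (fun ω => -W t ω - -W s ω) = (fun x => -x) ∘ (fun ω => W t ω - W s ω) := by
      ext ω; simp; ring
    have hm : Measurable fun ω => W t ω - W s ω := (hW.meas t).sub (hW.meas s)
    have hn : Measurable fun x : ℝ => -x := measurable_neg
    rw [e, ← Measure.map_map hn hm, hW.law s t h, gaussianReal_map_neg, neg_zero]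

lemma isPre (hW : IsBM P W) : IsPreBrownianReal W P := by
  refine HasIndepIncrements.isPreBrownianReal_of_hasLaw (fun t => ⟨(hW.meas t).aemeasurable, ?_⟩)
    hW.indep
  have h1 := hW.law 0 t zero_le
  rw [tsub_zero] at h1
  rw [← h1]
  apply Measure.map_congr
  filter_upwards [hW.zero] with ω h
  rw [h, sub_zero]

lemma path_meas (hW : IsBM P W) : Measurable (fun ω => (fun t => W t ω : ℝ≥0 → ℝ)) :=
  measurable_pi_iff.2 hW.meas

lemma map_path_neg (hW : IsBM P W) :
    P.map (fun ω => (fun t => W t ω : ℝ≥0 → ℝ)) = P.map (fun ω => (fun t => -W t ω : ℝ≥0 → ℝ)) := by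
  refine (map_eq_iff_forall_finset_map_restrict_eq (path_meas hW).aemeasurable
    (path_meas (neg_isBM hW)).aemeasurable).2 fun I => ?_
  rw [((isPre hW).hasLaw I).map_eq, ((isPre (neg_isBM hW)).hasLaw I).map_eq]

lemma integral_neg_eq (hW : IsBM P W) (Φ : (ℝ≥0 → ℝ) → ℝ) (hΦ : Measurable Φ) :
    ∫ ω, Φ (fun t => -W t ω) ∂P = ∫ ω, Φ (fun t => W t ω) ∂P := by
  have h1 := integral_map (μ := P) (path_meas hW).aemeasurable
    (f := Φ) hΦ.aestronglyMeasurable
  have h2 := integral_map (μ := P) (path_meas (neg_isBM hW)).aemeasurable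
    (f := Φ) hΦ.aestronglyMeasurable
  rw [← h1, ← h2, map_path_neg hW]

end law

section det

/-- the least upper bound property of `sp` -/
def Lub : Prop := ∀ (t : ℝ≥0) (x : ℝ≥0 → ℝ), Continuous x → IsLUB (x '' Iic t) (sp t x)

variable {x y : ℝ≥0 → ℝ}

lemma le_sp (hL : Lub) (hx : Continuous x) {s t : ℝ≥0} (h : s ≤ t) : x s ≤ sp t x :=
  (hL t x hx).1 ⟨s, h, rfl⟩

lemma sp_le (hL : Lub) (hx : Continuous x) {t : ℝ≥0} {c : ℝ} (h : ∀ s ≤ t, x s ≤ c) :
    sp t x ≤ c := by
  refine (hL t x hx).2 ?_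
  rintro _ ⟨s, hs, rfl⟩
  exact h s hs

lemma exists_sp (hL : Lub) (hx : Continuous x) (t : ℝ≥0) : ∃ s ≤ t, x s = sp t x := by
  have hI : Iic t = Icc 0 t := by ext s; simp
  have hc : IsCompact (Iic t) := hI ▸ isCompact_Icc
  obtain ⟨s, hs, hmax⟩ := hc.exists_isMaxOn ⟨t, Set.mem_Iic.2 le_rfl⟩ hx.continuousOn
  exact ⟨s, hs, le_antisymm (le_sp hL hx hs) (sp_le hL hx fun u hu => hmax hu)⟩

lemma sp_zero (hL : Lub) (hx : Continuous x) : sp 0 x = x 0 := by
  obtain ⟨s, hs, h⟩ := exists_sp hL hx 0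
  rw [← h, nonpos_iff_eq_zero.1 hs]

lemma cont_sp (hL : Lub) (hx : Continuous x) : Continuous fun s => sp s x := by
  have h1 : (fun s => sp s x) = fun s : ℝ≥0 => sSup ((fun u : ℝ≥0 => x (s * u)) '' Icc 0 1) := by
    funext s
    have h2 : (fun u : ℝ≥0 => x (s * u)) '' Icc 0 1 = x '' Iic s := by
      ext v
      constructor
      · rintro ⟨u, ⟨-, hu⟩, rfl⟩
        exact ⟨s * u, mul_le_of_le_one_right' hu, rfl⟩
      · rintro ⟨w, hw, rfl⟩
        rcases eq_or_ne s 0 with rfl | hs
        · refine ⟨0, ⟨le_rfl, zero_le_one⟩, ?_⟩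
          rw [nonpos_iff_eq_zero.1 (show w ≤ 0 from hw)]
          simp
        · refine ⟨w / s, ⟨zero_le, ?_⟩, ?_⟩
          · exact div_le_one_of_le₀ hw zero_le
          · show x (s * (w / s)) = x w
            rw [mul_div_cancel₀ w hs]
    rw [h2]
    exact ((hL s x hx).csSup_eq ⟨x 0, 0, Set.mem_Iic.2 zero_le, rfl⟩).symm
  rw [h1]
  exact IsCompact.continuous_sSup (f := fun s u : ℝ≥0 => x (s * u)) isCompact_Icc
    (hx.comp (continuous_fst.mul continuous_snd))

/-- the upper side -/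
noncomputable def S1 (t : ℝ≥0) (x y : ℝ≥0 → ℝ) : ℝ := sp t fun s => sp s x - y s
/-- the lower side -/
noncomputable def S2 (t : ℝ≥0) (x y : ℝ≥0 → ℝ) : ℝ := sp t fun s => (sp s fun u => -x u) + y s

lemma contact_iff (hL : Lub) (hx : Continuous x) (hy : Continuous y) (t : ℝ≥0) {a z : ℝ}
    (ha : 0 ≤ a) :
    (∀ s ≤ t, (x '' Iic s) ∩ Metric.closedBall (z + y s) a = ∅) ↔
      (S1 t x y < z - a ∨ z + a < -(S2 t x y)) := by
  have hnx : Continuous fun u => -x u := hx.neg
  have hg1 : Continuous fun s => sp s x - y s := (cont_sp hL hx).sub hy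
  have hg2 : Continuous fun s => (sp s fun u => -x u) + y s := (cont_sp hL hnx).add hy
  constructor
  · intro h
    have key : ∀ s ≤ t, sp s x - y s < z - a ∨ (sp s fun u => -x u) + y s < -z - a := by
      intro s hs
      by_contra hcon
      push Not at hcon
      obtain ⟨h1, h2⟩ := hcon
      obtain ⟨u1, hu1, e1⟩ := exists_sp hL hx s
      obtain ⟨u2, hu2, e2⟩ := exists_sp hL hnx s
      -- a value in both intervals
      have hle : max (x u2) (z + y s - a) ≤ min (x u1) (z + y s + a) := by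
        have e3 : x u2 ≤ x u1 := by rw [e1]; exact le_sp hL hx hu2
        refine max_le (le_min e3 (by linarith)) (le_min (by linarith) (by linarith))
      set v := max (x u2) (z + y s - a) with hv
      have hv1 : x u2 ≤ v := le_max_left _ _
      have hv2 : v ≤ x u1 := hle.trans (min_le_left _ _)
      have hv3 : z + y s - a ≤ v := le_max_right _ _
      have hv4 : v ≤ z + y s + a := hle.trans (min_le_right _ _)
      have hpre : IsPreconnected (Iic s) := by
        have hI : Iic s = Icc 0 s := by ext w; simp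
        rw [hI]; exact isPreconnected_Icc
      have hv5 : v ∈ x '' Iic s :=
        hpre.intermediate_value hu2 hu1 hx.continuousOn ⟨hv1, hv2⟩
      have : v ∈ (x '' Iic s) ∩ Metric.closedBall (z + y s) a := by
        refine ⟨hv5, ?_⟩
        rw [Metric.mem_closedBall, Real.dist_eq, abs_le]
        constructor <;> linarith
      rw [h s hs] at this
      exact this
    have hO1 : IsOpen {s | sp s x - y s < z - a} := isOpen_lt hg1 continuous_const
    have hO2 : IsOpen {s | (sp s fun u => -x u) + y s < -z - a} := isOpen_lt hg2 continuous_const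
    have hdis : Disjoint {s | sp s x - y s < z - a} {s | (sp s fun u => -x u) + y s < -z - a} := by
      rw [Set.disjoint_left]
      intro s h1 h2
      have h3 : x s ≤ sp s x := le_sp hL hx le_rfl
      have h4 : -x s ≤ sp s fun u => -x u := le_sp hL hnx le_rfl
      simp only [mem_ofPred_eq] at h1 h2
      linarith
    have hpre : IsPreconnected (Iic t) := by
      have hI : Iic t = Icc 0 t := by ext w; simp
      rw [hI]; exact isPreconnected_Icc
    rcases hpre.subset_or_subset hO1 hO2 hdis (fun s hs => key s hs) with h1 | h1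
    · left
      obtain ⟨s, hs, e⟩ := exists_sp hL hg1 t
      have := h1 hs
      simp only [mem_ofPred_eq] at this
      unfold S1
      linarith
    · right
      obtain ⟨s, hs, e⟩ := exists_sp hL hg2 t
      have := h1 hs
      simp only [mem_ofPred_eq] at this
      unfold S2
      linarith
  · rintro (h | h) s hs
    · rw [Set.eq_empty_iff_forall_notMem]
      rintro _ ⟨⟨u, hu, rfl⟩, hb⟩
      rw [Metric.mem_closedBall, Real.dist_eq, abs_le] at hb
      have h1 : sp s x - y s ≤ S1 t x y := le_sp hL hg1 hs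
      have h2 : x u ≤ sp s x := le_sp hL hx hu
      linarith [hb.1]
    · rw [Set.eq_empty_iff_forall_notMem]
      rintro _ ⟨⟨u, hu, rfl⟩, hb⟩
      rw [Metric.mem_closedBall, Real.dist_eq, abs_le] at hb
      have h1 : (sp s fun u => -x u) + y s ≤ S2 t x y := le_sp hL hg2 hs
      have h2 : -x u ≤ sp s fun u => -x u := le_sp hL hnx hu
      linarith [hb.2]

end det

section integral

variable {Ω : Type u} [MeasurableSpace Ω] {P : Measure Ω} [IsProbabilityMeasure P]
  {W : ℝ≥0 → Ω → ℝ}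

lemma sp_add_bounds (hL : Lub) {f w : ℝ≥0 → ℝ} (hf : Continuous f) (hw : Continuous w) (t : ℝ≥0)
    (h0 : f 0 = 0) (hw0 : w 0 = 0) :
    0 ≤ sp t (fun s => f s + w s) ∧ sp t (fun s => f s + w s) ≤ sp t f + sp t w := by
  have hfw : Continuous fun s => f s + w s := hf.add hw
  constructor
  · have := le_sp hL hfw (s := 0) (t := t) zero_le
    simpa [h0, hw0] using this
  · refine sp_le hL hfw fun s hs => ?_
    exact add_le_add (le_sp hL hf hs) (le_sp hL hw hs)

lemma integrable_sp (hL : Lub) (hW : IsBM P W) (t : ℝ≥0)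
    (hm : Measurable (sp t)) (hint : Integrable (fun ω => sp t (fun s => W s ω)) P)
    {f : ℝ≥0 → ℝ} (hf : Continuous f) (h0 : f 0 = 0) :
    Integrable (fun ω => sp t (fun s => f s + W s ω)) P ∧
      ∀ᵐ ω ∂P, 0 ≤ sp t (fun s => f s + W s ω) := by
  have hpath : Measurable fun ω => (fun s => f s + W s ω : ℝ≥0 → ℝ) :=
    measurable_pi_iff.2 fun s => measurable_const.add (hW.meas s)
  have hb : ∀ᵐ ω ∂P, 0 ≤ sp t (fun s => f s + W s ω) ∧
      sp t (fun s => f s + W s ω) ≤ sp t f + sp t (fun s => W s ω) := by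
    filter_upwards [hW.zero, hW.cont] with ω h1 h2
    exact sp_add_bounds hL hf h2 t h0 h1
  refine ⟨?_, hb.mono fun _ h => h.1⟩
  refine Integrable.mono' ((integrable_const (sp t f)).add hint)
    (hm.comp hpath).aestronglyMeasurable ?_
  filter_upwards [hb] with ω h
  rw [Real.norm_eq_abs, abs_of_nonneg h.1]
  exact h.2

/-- the bad set -/
def B (t : ℝ≥0) (a : ℝ) : Set ((ℝ≥0 → ℝ) × ℝ × (ℝ≥0 → ℝ)) :=
  {q | q.2.1 ≤ S1 t q.1 q.2.2 + a ∧ -(S2 t q.1 q.2.2) - a ≤ q.2.1}

lemma meas_S1 (hm : ∀ t, Measurable (sp t)) (t : ℝ≥0) :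
    Measurable fun q : (ℝ≥0 → ℝ) × (ℝ≥0 → ℝ) => S1 t q.1 q.2 := by
  refine (hm t).comp (measurable_pi_iff.2 fun s => ?_)
  exact ((hm s).comp measurable_fst).sub ((measurable_pi_apply s).comp measurable_snd)

lemma meas_S2 (hm : ∀ t, Measurable (sp t)) (t : ℝ≥0) :
    Measurable fun q : (ℝ≥0 → ℝ) × (ℝ≥0 → ℝ) => S2 t q.1 q.2 := by
  refine (hm t).comp (measurable_pi_iff.2 fun s => ?_)
  refine Measurable.add ?_ ((measurable_pi_apply s).comp measurable_snd)
  refine (hm s).comp (measurable_pi_iff.2 fun u => ?_)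
  exact ((measurable_pi_apply u).comp measurable_fst).neg

lemma meas_B (hm : ∀ t, Measurable (sp t)) (t : ℝ≥0) (a : ℝ) : MeasurableSet (B t a) := by
  have hpr : Measurable fun q : (ℝ≥0 → ℝ) × ℝ × (ℝ≥0 → ℝ) => (q.1, q.2.2) :=
    measurable_fst.prodMk (measurable_snd.comp measurable_snd)
  have h1 := (meas_S1 hm t).comp hpr
  have h2 := (meas_S2 hm t).comp hpr
  have hz : Measurable fun q : (ℝ≥0 → ℝ) × ℝ × (ℝ≥0 → ℝ) => q.2.1 :=
    measurable_fst.comp measurable_snd
  exact (measurableSet_le hz (h1.add_const a)).inter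
    (measurableSet_le (h2.neg.sub_const a) hz)

lemma lintegral_B (hL : Lub) (hm : ∀ t, Measurable (sp t)) (hW : IsBM P W)
    (hint : ∀ V : ℝ≥0 → Ω → ℝ, IsBM P V → ∀ t, Integrable (fun ω => sp t (fun s => V s ω)) P)
    (t : ℝ≥0) {a : ℝ} (ha : 0 ≤ a) {x : ℝ≥0 → ℝ} (hx : Continuous x) (hx0 : x 0 = 0) :
    0 ≤ H P W t x ∧
    ∫⁻ z : ℝ, P {ω | (x, z, (fun u => W u ω)) ∈ B t a} = ENNReal.ofReal (2 * a + H P W t x) := by
  have hnx : Continuous fun u => -x u := hx.neg
  have hnx0 : -x 0 = 0 := by rw [hx0, neg_zero]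
  have hf1 : Continuous fun s => sp s x := cont_sp hL hx
  have hf2 : Continuous fun s => sp s fun u => -x u := cont_sp hL hnx
  have hf10 : sp 0 x = 0 := by rw [sp_zero hL hx, hx0]
  have hf20 : (sp 0 fun u => -x u) = 0 := by rw [sp_zero hL hnx, hnx0]
  obtain ⟨i1, p1⟩ := integrable_sp hL (neg_isBM hW) t (hm t) (hint _ (neg_isBM hW) t) hf1 hf10
  obtain ⟨i2, p2⟩ := integrable_sp hL hW t (hm t) (hint _ hW t) hf2 hf20
  obtain ⟨i3, p3⟩ := integrable_sp hL hW t (hm t) (hint _ hW t) hf1 hf10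
  have i1' : Integrable (fun ω => S1 t x (fun u => W u ω)) P := by
    refine i1.congr (Eventually.of_forall fun ω => ?_)
    simp only [S1, sub_eq_add_neg]
  have p1' : ∀ᵐ ω ∂P, 0 ≤ S1 t x (fun u => W u ω) := by
    filter_upwards [p1] with ω h
    simpa only [S1, sub_eq_add_neg] using h
  have e1 : ∫ ω, S1 t x (fun u => W u ω) ∂P = U P W t fun s => sp s x := by
    have hΦ : Measurable fun w : ℝ≥0 → ℝ => sp t (fun s => sp s x + w s) :=
      (hm t).comp (measurable_pi_iff.2 fun s => measurable_const.add (measurable_pi_apply s))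
    have := integral_neg_eq hW _ hΦ
    rw [U, ← this]
    rfl
  have e2 : ∫ ω, S2 t x (fun u => W u ω) ∂P = U P W t fun s => sp s fun u => -x u := rfl
  have hH : H P W t x = ∫ ω, S1 t x (fun u => W u ω) ∂P + ∫ ω, S2 t x (fun u => W u ω) ∂P := by
    rw [e1, e2]; rfl
  have n1 : 0 ≤ ∫ ω, S1 t x (fun u => W u ω) ∂P := integral_nonneg_of_ae p1'
  have n2 : 0 ≤ ∫ ω, S2 t x (fun u => W u ω) ∂P := integral_nonneg_of_ae p2
  refine ⟨by rw [hH]; exact add_nonneg n1 n2, ?_⟩
  have hE : MeasurableSet {q : ℝ × Ω | (x, q.1, (fun u => W u q.2 : ℝ≥0 → ℝ)) ∈ B t a} := by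
    refine (measurableSet_preimage ?_ (meas_B hm t a))
    exact measurable_const.prodMk (measurable_fst.prodMk
      ((path_meas hW).comp measurable_snd))
  have h1 := Measure.prod_apply (μ := (volume : Measure ℝ)) (ν := P) hE
  have h2 := Measure.prod_apply_symm (μ := (volume : Measure ℝ)) (ν := P) hE
  have h3 : ∫⁻ z : ℝ, P {ω | (x, z, (fun u => W u ω)) ∈ B t a} =
      ∫⁻ ω, volume {z : ℝ | (x, z, (fun u => W u ω : ℝ≥0 → ℝ)) ∈ B t a} ∂P := h1.symm.trans h2
  rw [h3]
  have h4 : ∀ ω, volume {z : ℝ | (x, z, (fun u => W u ω : ℝ≥0 → ℝ)) ∈ B t a} =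
      ENNReal.ofReal (S1 t x (fun u => W u ω) + S2 t x (fun u => W u ω) + 2 * a) := by
    intro ω
    have : {z : ℝ | (x, z, (fun u => W u ω : ℝ≥0 → ℝ)) ∈ B t a} =
        Icc (-(S2 t x (fun u => W u ω)) - a) (S1 t x (fun u => W u ω) + a) := by
      ext z
      exact and_comm
    rw [this, Real.volume_Icc]
    congr 1
    ring
  simp only [h4]
  rw [← ofReal_integral_eq_lintegral_ofReal]
  · congr 1
    have i2' : Integrable (fun ω => S2 t x (fun u => W u ω)) P := i2
    have j1 := integral_add (μ := P)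
      (f := fun ω => S1 t x (fun u => W u ω) + S2 t x (fun u => W u ω)) (g := fun _ => 2 * a)
      (i1'.add i2') (integrable_const _)
    have j2 := integral_add (μ := P) i1' i2'
    rw [j1, j2, integral_const, hH]
    simp
    ring
  · exact (i1'.add i2).add (integrable_const _)
  · filter_upwards [p1', p2] with ω g1 g2
    have : 0 ≤ S2 t x (fun u => W u ω) := g2
    simp only [Pi.zero_apply]
    positivity

end integral

theorem taskV3 : TaskV3.{u, v} := by
  intro _ hM hV2 Ω _ P _ lam X x Y Ω' _ P' _ W a hT hW ha t A hA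
  have hL : Lub := fun s y hy => (hM Ω' P' W hW s).2.2.2.2 y hy
  have hm : ∀ s, Measurable (sp s) := fun s => (hM Ω' P' W hW s).2.1
  have hint : ∀ V : ℝ≥0 → Ω' → ℝ, IsBM P' V → ∀ t, Integrable (fun ω => sp t (fun s => V s ω)) P' :=
    fun V hV t => (hM Ω' P' V hV t).2.2.2.1
  have hXc := hT.particle.cont
  have hX0 := hT.particle.zero
  have hkey : ∀ᵐ ω ∂P, 0 ≤ H P' W t (fun u => X u ω) ∧
      ∫⁻ z : ℝ, P' {ω' | ((fun u => X u ω), z, (fun u => W u ω')) ∈ B t a} =
        ENNReal.ofReal (2 * a + H P' W t (fun u => X u ω)) := by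
    filter_upwards [hXc, hX0] with ω h1 h2
    exact lintegral_B hL hm hW hint t ha h1 h2
  have h1 := hV2 Ω P lam X x Y Ω' P' W hT hW (B t a) (meas_B hm t a)
    (by filter_upwards [hkey] with ω h; rw [h.2]; exact ENNReal.ofReal_ne_top) A hA
  have h2 : P ({ω | (fun u => X u ω) ∈ A} ∩ alive a X x Y t) =
      P ({ω | (fun u => X u ω) ∈ A} ∩
        {ω | ∀ i, ((fun u => X u ω), x i ω, (fun u => Y i u ω)) ∉ B t a}) := by
    apply measure_congr
    have hY : ∀ᵐ ω ∂P, ∀ i, Continuous fun u => Y i u ω := ae_all_iff.2 fun i => (hT.traps i).cont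
    filter_upwards [hXc, hY] with ω c1 c2
    have : (ω ∈ alive a X x Y t) = (ω ∈ {ω | ∀ i, ((fun u => X u ω), x i ω, (fun u => Y i u ω)) ∉
        B t a}) := by
      apply propext
      have e1 : ω ∈ alive a X x Y t ↔
          ∀ i, ∀ s ≤ t, ((fun u => X u ω) '' Iic s) ∩ Metric.closedBall (x i ω + Y i s ω) a = ∅ := by
        constructor
        · intro h i s hs
          have h3 := h s hs
          rw [Set.eq_empty_iff_forall_notMem] at h3 ⊢
          rintro v ⟨hv1, hv2⟩
          exact h3 v ⟨hv1, Set.mem_iUnion.2 ⟨i, hv2⟩⟩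
        · intro h s hs
          rw [Set.eq_empty_iff_forall_notMem]
          rintro v ⟨hv1, hv2⟩
          obtain ⟨i, hi⟩ := Set.mem_iUnion.1 hv2
          have h3 := h i s hs
          rw [Set.eq_empty_iff_forall_notMem] at h3
          exact h3 v ⟨hv1, hi⟩
      rw [e1]
      refine forall_congr' fun i => ?_
      rw [contact_iff hL c1 (c2 i) t ha]
      simp only [B, mem_ofPred_eq, not_and_or, not_le]
      constructor
      · rintro (h | h)
        · left; linarith
        · right; linarith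
      · rintro (h | h)
        · left; linarith
        · right; linarith
    exact congrArg (fun p => ω ∈ {ω | (fun u => X u ω) ∈ A} ∧ p) this
  rw [h2, h1, ← lintegral_const_mul' _ _ ENNReal.ofReal_ne_top]
  apply lintegral_congr_ae
  filter_upwards [ae_restrict_of_ae hkey] with ω h
  rw [h.2, ENNReal.toReal_ofReal (by linarith [h.1]), wt, ← ENNReal.ofReal_mul (Real.exp_pos _).le,
    ← Real.exp_add]
  congr 2
  ring

end Pool.Agent.H195R3.BTV3
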